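import Pool.Agent.Porous.LimMod

open Porous Filter Topology
open scoped ENNReal

namespace Pool.Agent.Results.MP_2f78f5_an.SupMinus

/-- In dimension two `S₂(c) = μ` for every `c > 0`, for the exactly isotropic composites with any period lattice and for the
isotropic limits of composites with a prescribed period lattice; the explicit belt composites `beltSet m` are isotropic with
moduli `(k m, n m)` tending to `(0, μ)`, so that `n m - c k m` tends to `S₂(c)`. -/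
theorem result : ∀ κ μ : ℝ, 0 < κ → 0 < μ →
    (∀ c : ℝ, 0 < c → IsLUB ((fun p : ℝ × ℝ => p.2 - c * p.1) '' IsoModuli (ENNReal.ofReal κ) μ) μ) ∧
    (∀ c : ℝ, 0 < c → ∀ b : Module.Basis (Fin 2) ℝ ℂ,
      IsLUB ((fun p : ℝ × ℝ => p.2 - c * p.1) '' LimModuli b (ENNReal.ofReal κ) μ) μ) ∧
    ∃ k n : ℕ → ℝ, Tendsto k atTop (𝓝 0) ∧ Tendsto n atTop (𝓝 μ) ∧
      (∀ c : ℝ, Tendsto (fun m => n m - c * k m) atTop (𝓝 μ)) ∧
      ∀ m : ℕ, 4 ≤ m → 0 ≤ k m ∧ 0 ≤ n m ∧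
        ∀ b : Module.Basis (Fin 2) ℝ ℂ, b 0 = Lm m → b 1 = Lm m * zt →
        MeasurableSet (beltSet m) ∧ (∀ (i : Fin 2) (x : ℂ), x + b i ∈ beltSet m ↔ x ∈ beltSet m) ∧
        ∀ e₁₁ e₂₂ e₁₂ : ℝ, effE b (beltSet m) (ENNReal.ofReal κ) μ e₁₁ e₂₂ e₁₂ =
          ENNReal.ofReal (k m * (e₁₁ + e₂₂) ^ 2 + n m * ((e₁₁ - e₂₂) ^ 2 + 4 * e₁₂ ^ 2)) := by
  intro κ μ hκ hμ
  have h : ENNReal.ofReal κ ≠ 0 := by simpa using hκ
  refine ⟨fun c hc => IsoModuli_isLUB _ h μ hμ c hc, fun c hc b => LimModuli_isLUB b _ h μ hμ c hc, ?_⟩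
  obtain ⟨C, hC, hmain⟩ := hex_explicit (ENNReal.ofReal κ) h μ hμ
  have hL : ∀ m : ℕ, 0 < Lm m := fun m => by unfold Lm; positivity
  have key : ∀ m : ℕ, 4 ≤ m → ∃ k n : ℝ, 0 ≤ k ∧ k ≤ C / m ∧ 0 ≤ n ∧ μ - C * (1 + Real.log m) / m ≤ n ∧ n ≤ μ ∧
      ∀ b : Module.Basis (Fin 2) ℝ ℂ, b 0 = Lm m → b 1 = Lm m * zt →
        MeasurableSet (beltSet m) ∧ (∀ (i : Fin 2) (x : ℂ), x + b i ∈ beltSet m ↔ x ∈ beltSet m) ∧
        ∀ e₁₁ e₂₂ e₁₂ : ℝ, effE b (beltSet m) (ENNReal.ofReal κ) μ e₁₁ e₂₂ e₁₂ =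
          ENNReal.ofReal (k * (e₁₁ + e₂₂) ^ 2 + n * ((e₁₁ - e₂₂) ^ 2 + 4 * e₁₂ ^ 2)) := by
    intro m hm
    obtain ⟨b, hb0, hb1⟩ := hex_basis (Lm m) (hL m)
    obtain ⟨h1, h2, k, n, hk0, hk, hn0, hn, hn', he⟩ := hmain m hm b hb0 hb1
    refine ⟨k, n, hk0, hk, hn0, hn, hn', ?_⟩
    intro b' hb0' hb1'
    have hbb : b' = b := by
      apply Module.Basis.eq_of_apply_eq
      intro i
      fin_cases i
      · exact hb0'.trans hb0.symm
      · exact hb1'.trans hb1.symm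
    subst hbb
    exact ⟨h1, h2, he⟩
  choose! k n hk0 hk hn0 hn hn' he using key
  have hk' : Tendsto k atTop (𝓝 0) := by
    refine squeeze_zero' (Filter.eventually_atTop.2 ⟨4, hk0⟩) (Filter.eventually_atTop.2 ⟨4, hk⟩) ?_
    exact tendsto_const_div_atTop_nhds_zero_nat C
  have hlog : Tendsto (fun m : ℕ => μ - C * (1 + Real.log m) / m) atTop (𝓝 μ) := by
    have h1 : Tendsto (fun m : ℕ => Real.log (m : ℝ) / (m : ℝ)) atTop (𝓝 0) := by
      have := Real.isLittleO_log_id_atTop.tendsto_div_nhds_zero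
      exact this.comp tendsto_natCast_atTop_atTop
    have h2 : Tendsto (fun m : ℕ => C / (m : ℝ)) atTop (𝓝 0) := tendsto_const_div_atTop_nhds_zero_nat C
    have h3 : Tendsto (fun m : ℕ => μ - (C / (m : ℝ) + C * (Real.log (m : ℝ) / (m : ℝ)))) atTop (𝓝 (μ - (0 + C * 0))) :=
      (tendsto_const_nhds).sub (h2.add (h1.const_mul C))
    simp only [mul_zero, add_zero, sub_zero] at h3
    refine h3.congr (fun m => ?_)
    ring
  have hn'' : Tendsto n atTop (𝓝 μ) :=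
    tendsto_of_tendsto_of_tendsto_of_le_of_le' hlog tendsto_const_nhds
      (Filter.eventually_atTop.2 ⟨4, hn⟩) (Filter.eventually_atTop.2 ⟨4, hn'⟩)
  refine ⟨k, n, hk', hn'', ?_, fun m hm => ⟨hk0 m hm, hn0 m hm, he m hm⟩⟩
  intro c
  have := hn''.sub (hk'.const_mul c)
  simpa using this

end Pool.Agent.Results.MP_2f78f5_an.SupMinus
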